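import Pool.Agent.helper7.EP.SpecL

/-!
Project ep:, module EXC: the number of exceptions.
-/

set_option autoImplicit false

open Finset
open scoped Real

noncomputable section

namespace Pool.Agent.EP

/-- The even values up to `X`, as a finset. -/
def EXC_S (X : ℕ) : Finset ℕ := {n ∈ range (X + 1) | Even (Fintype.card (Nat.Partition n))}

theorem EXC_pp {n : ℕ} (h : pp n ≠ 1) : Even (Fintype.card (Nat.Partition n)) := by
  unfold pp at h
  rw [← Nat.not_odd_iff_even]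
  intro ho
  apply h
  obtain ⟨k, hk⟩ := ho
  rw [hk]
  push_cast
  have h2 : (2 : ZMod 2) = 0 := by decide
  rw [h2]
  simp

theorem EXC_r0 (a : ℕ) : (r0 a).Prime ∧ r0 a ^ 2 % 24 = 1 ∧ r0 a ^ 2 ≤ 361 ∧ 1 ≤ r0 a := by
  unfold r0
  split_ifs <;> norm_num

theorem EXC_pow (a : ℕ) (ha : 3 ≤ a) : 2 ^ a % 24 = 8 ∨ 2 ^ a % 24 = 16 := by
  induction a, ha using Nat.le_induction with
  | base => left; norm_num
  | succ a _ ih =>
    rw [pow_succ]
    omega

/-- The exceptional values of second type. -/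
theorem EXC_val {a n w d s : ℕ} (ha : 3 ≤ a) (hn : 2 ^ a < 24 * n + 3) (hw : w ∈ ws (2 ^ a))
    (hd : d = 1 ∨ d = r0 a) (hd1 : d ∣ 2 ^ a - 3 * w ^ 2) (hd2 : d ∣ 24 * n + 3 - 2 ^ a)
    (hs : s = ((2 ^ a - 3 * w ^ 2) * (24 * n + 3 - 2 ^ a) / d ^ 2 + 1) / 24) :
    1 ≤ s ∧ s ≤ 2 ^ a * n ∧ 24 * n + 3 - 2 ^ a ∣ d ^ 2 * (24 * s - 1) := by
  obtain ⟨hp, hr1, hr2, hr3⟩ := EXC_r0 a
  have hw' := Finset.mem_filter.1 hw
  obtain ⟨-, hw1, hw2⟩ := hw'
  have hA := EXC_pow a ha
  have hA8 : 8 ≤ 2 ^ a := by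
    calc 8 = 2 ^ 3 := by norm_num
      _ ≤ 2 ^ a := Nat.pow_le_pow_right (by norm_num) ha
  set A := 2 ^ a with hAdef
  have hdsq : d ^ 2 % 24 = 1 := by
    rcases hd with h | h
    · subst h; norm_num
    · subst h; exact hr1
  have hdpos : 0 < d ^ 2 := by
    rcases hd with h | h
    · subst h; norm_num
    · subst h; positivity
  have hwsq : 3 * w ^ 2 % 24 = 3 := by
    have h8 : w % 8 = 1 ∨ w % 8 = 3 ∨ w % 8 = 5 ∨ w % 8 = 7 := by omega
    have h9 : w ^ 2 % 8 = 1 := by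
      rcases h8 with h | h | h | h <;> simp [Nat.pow_mod, h]
    omega
  have hwpos : 1 ≤ w ^ 2 := Nat.one_le_pow _ _ (by omega)
  obtain ⟨B, hB⟩ : ∃ B, B = A - 3 * w ^ 2 := ⟨_, rfl⟩
  obtain ⟨M, hM⟩ : ∃ M, M = 24 * n + 3 - A := ⟨_, rfl⟩
  rw [← hB, ← hM] at hs
  rw [← hB] at hd1
  rw [← hM] at hd2 ⊢
  have hdvd : d ^ 2 ∣ B * M := by
    rw [sq]; exact Nat.mul_dvd_mul hd1 hd2
  obtain ⟨Q, hQ⟩ := hdvd
  have hQ' : B * M / d ^ 2 = Q := by
    rw [hQ]; exact Nat.mul_div_cancel_left _ hdpos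
  rw [hQ'] at hs
  -- congruence
  have hB24 : B % 24 = 5 ∨ B % 24 = 13 := by omega
  have hBM : (B * M) % 24 = 23 := by
    rcases hA with h | h
    · have h1 : B % 24 = 5 := by omega
      have h2 : M % 24 = 19 := by omega
      rw [Nat.mul_mod, h1, h2]
    · have h1 : B % 24 = 13 := by omega
      have h2 : M % 24 = 11 := by omega
      rw [Nat.mul_mod, h1, h2]
  have hQ24 : Q % 24 = 23 := by
    rw [hQ, Nat.mul_mod, hdsq] at hBM
    simpa using hBM
  have hs24 : 24 * s = Q + 1 := by omega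
  have hQle : Q ≤ B * M := by
    rw [hQ]; exact Nat.le_mul_of_pos_left _ hdpos
  have hB3 : B + 3 ≤ A := by omega
  have hM5 : M + 5 ≤ 24 * n := by omega
  have hBM2 : B * M ≤ (A - 3) * (24 * n) := Nat.mul_le_mul (by omega) (by omega)
  have hA3 : (A - 3) * (24 * n) + 3 * (24 * n) = A * (24 * n) := by
    rw [← Nat.add_mul]; congr 1; omega
  refine ⟨by omega, ?_, ?_⟩
  · have h1 : 24 * s ≤ 24 * (A * n) := by
      have : 24 * (A * n) = A * (24 * n) := by ring
      omega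
    omega
  · have : 24 * s - 1 = Q := by omega
    rw [this, ← hQ]
    exact Dvd.intro_left _ rfl

theorem EXC_div (A X N : ℕ) (hN : 0 < N) :
    #({n ∈ range (X + 1) | A < 24 * n + 3 ∧ 24 * n + 3 - A ∣ N}) ≤ #N.divisors := by
  apply Finset.card_le_card_of_injOn (fun n => 24 * n + 3 - A)
  · intro n hn
    have h := (Finset.mem_filter.1 (Finset.mem_coe.1 hn)).2
    exact Finset.mem_coe.2 (Nat.mem_divisors.2 ⟨h.2, by omega⟩)
  · intro n hn n' hn' he
    have h := (Finset.mem_filter.1 (Finset.mem_coe.1 hn)).2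
    have h' := (Finset.mem_filter.1 (Finset.mem_coe.1 hn')).2
    simp only at he
    omega

theorem EXC (hIDL : IDL_stmt) (hSPK : SPK_stmt) : EXC_stmt := by
  classical
  intro a Y D ha hD
  set A := 2 ^ a with hA
  set X := A * Y with hX
  have hApos : 0 < A := by positivity
  have h4 : 4 ^ a = A * A := by
    rw [hA, ← pow_add, ← two_mul, pow_mul]; norm_num
  set R := Nat.sqrt (8 * X + 1) with hR
  let F1 : Finset ℕ := (range (R + 1) ×ˢ EXC_S Y).image fun p => tri p.1 + A * p.2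
  let I2 : Finset (ℕ × ℕ) := {p ∈ ({1, r0 a} : Finset ℕ) ×ˢ EXC_S (4 ^ a * Y) | 1 ≤ p.2}
  let F2 : Finset ℕ := I2.biUnion fun p =>
    {n ∈ range (X + 1) | A < 24 * n + 3 ∧ 24 * n + 3 - A ∣ p.1 ^ 2 * (24 * p.2 - 1)}
  obtain ⟨hp, hr1, hr2, hr3⟩ := EXC_r0 a
  have hF1 : #F1 ≤ (R + 1) * sE Y := by
    refine Finset.card_image_le.trans ?_
    rw [Finset.card_product, Finset.card_range]
    exact le_rfl
  have hF2 : #F2 ≤ 2 * D * sE (4 ^ a * Y) := by
    have h1 : #F2 ≤ ∑ p ∈ I2, D := by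
      refine Finset.card_biUnion_le.trans (Finset.sum_le_sum fun p hp' => ?_)
      obtain ⟨h1, h2⟩ := Finset.mem_filter.1 hp'
      obtain ⟨h3, h4'⟩ := Finset.mem_product.1 h1
      have h5 : p.1 = 1 ∨ p.1 = r0 a := by simpa using h3
      have h6 : 1 ≤ p.1 ^ 2 ∧ p.1 ^ 2 ≤ 361 := by
        rcases h5 with h | h
        · rw [h]; norm_num
        · rw [h]; exact ⟨Nat.one_le_pow _ _ hr3, hr2⟩
      have h7 : p.2 ≤ 4 ^ a * Y := by
        have := (Finset.mem_filter.1 h4').1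
        rw [Finset.mem_range] at this
        omega
      have hpos : 0 < p.1 ^ 2 * (24 * p.2 - 1) := Nat.mul_pos (by omega) (by omega)
      refine (EXC_div A X _ hpos).trans (hD _ hpos ?_)
      calc p.1 ^ 2 * (24 * p.2 - 1) ≤ 361 * (24 * (4 ^ a * Y)) :=
            Nat.mul_le_mul h6.2 (by omega)
        _ = 8664 * (4 ^ a * Y) := by ring
    rw [Finset.sum_const, smul_eq_mul] at h1
    have h2 : #I2 ≤ 2 * sE (4 ^ a * Y) := by
      refine (Finset.card_filter_le _ _).trans ?_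
      rw [Finset.card_product]
      exact Nat.mul_le_mul Finset.card_le_two le_rfl
    calc #F2 ≤ #I2 * D := h1
      _ ≤ 2 * sE (4 ^ a * Y) * D := Nat.mul_le_mul_right _ h2
      _ = 2 * D * sE (4 ^ a * Y) := by ring
  have hsub : {n : ℕ | n ≤ X ∧ Sp a n ∧ ((#(rs A n) : ℕ) : ZMod 2) ≠ kap a} ⊆
      (↑(F1 ∪ F2) : Set ℕ) := by
    rintro n ⟨hn, hsp, hne⟩
    by_contra hnot
    have hnot' : n ∉ F1 ∪ F2 := fun h => hnot (Finset.mem_coe.2 h)
    rw [Finset.mem_union, not_or] at hnot'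
    obtain ⟨hn1, hn2⟩ := hnot'
    have hAn : A < 24 * n + 3 := by
      obtain ⟨p₁, p₂, hp1, hp2, -, -, he⟩ := id hsp
      rw [he]
      have h1 := hp.pos
      have h2 := hp1.pos
      have h3 := hp2.pos
      have : 0 < r0 a * p₁ * p₂ := by positivity
      omega
    apply hne
    have hid := hIDL a n ha hAn
    have hL : ∑ r ∈ rs (2 ^ a) n, pp ((n - tri r) / 2 ^ a) = ((#(rs A n) : ℕ) : ZMod 2) := by
      rw [Finset.sum_congr rfl (g := fun _ => (1 : ZMod 2)) fun r hr => ?_]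
      · simp [← hA]
      · by_contra hne1
        have hev := EXC_pp hne1
        obtain ⟨hr', htri, hdvd⟩ := Finset.mem_filter.1 hr
        apply hn1
        refine Finset.mem_image.2 ⟨(r, (n - tri r) / A), Finset.mem_product.2 ⟨?_, ?_⟩, ?_⟩
        · rw [Finset.mem_range]
          have h1 : 2 * tri r = r * (r + 1) := by
            unfold tri
            exact Nat.mul_div_cancel' (Nat.even_mul_succ_self r).two_dvd
          have h2 : r * r ≤ 8 * X + 1 := by nlinarith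
          have h3 : r ≤ R := Nat.le_sqrt.2 h2
          omega
        · refine Finset.mem_filter.2 ⟨?_, hev⟩
          rw [Finset.mem_range]
          have : (n - tri r) / A ≤ Y := by
            apply Nat.div_le_of_le_mul
            omega
          exact Nat.lt_succ_of_le this
        · have h1 : A * ((n - tri r) / A) = n - tri r := Nat.mul_div_cancel' hdvd
          simp only
          omega
    have hRr : ∑ w ∈ ws (2 ^ a), ∑ d ∈ (Nat.gcd (2 ^ a - 3 * w ^ 2)
        (24 * n + 3 - 2 ^ a)).divisors,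
        pp (((2 ^ a - 3 * w ^ 2) * (24 * n + 3 - 2 ^ a) / d ^ 2 + 1) / 24) = kap a := by
      unfold kap
      refine Finset.sum_congr rfl fun w hw => ?_
      rw [hSPK a n w ha hsp hw]
      rw [Finset.sum_congr rfl (g := fun _ => (1 : ZMod 2)) fun d hd => ?_]
      · simp
      · by_contra hne1
        have hev := EXC_pp hne1
        have hdg := Nat.dvd_of_mem_divisors hd
        have hdr : d = 1 ∨ d = r0 a :=
          (Nat.dvd_prime hp).1 (hdg.trans (Nat.gcd_dvd_right _ _))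
        have hdg' : d ∣ Nat.gcd (2 ^ a - 3 * w ^ 2) (24 * n + 3 - 2 ^ a) := by
          rw [hSPK a n w ha hsp hw]; exact hdg
        obtain ⟨g1, g2, g3⟩ := EXC_val ha hAn hw hdr (hdg'.trans (Nat.gcd_dvd_left _ _))
          (hdg'.trans (Nat.gcd_dvd_right _ _)) rfl
        apply hn2
        refine Finset.mem_biUnion.2 ⟨(d, ((2 ^ a - 3 * w ^ 2) * (24 * n + 3 - 2 ^ a) / d ^ 2 + 1)
          / 24), ?_, ?_⟩
        · refine Finset.mem_filter.2 ⟨Finset.mem_product.2 ⟨by simpa using hdr, ?_⟩, g1⟩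
          refine Finset.mem_filter.2 ⟨?_, hev⟩
          rw [Finset.mem_range]
          have h1 : 2 ^ a * n ≤ 4 ^ a * Y := by
            rw [h4, Nat.mul_assoc]
            exact Nat.mul_le_mul le_rfl hn
          simp only
          omega
        · refine Finset.mem_filter.2 ⟨?_, hAn, g3⟩
          rw [Finset.mem_range]
          omega
    rw [← hL, hid, hRr]
  calc Set.ncard {n : ℕ | n ≤ X ∧ Sp a n ∧ ((#(rs A n) : ℕ) : ZMod 2) ≠ kap a}
      ≤ Set.ncard (↑(F1 ∪ F2) : Set ℕ) := Set.ncard_le_ncard hsub (Finset.finite_toSet _)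
    _ = #(F1 ∪ F2) := Set.ncard_coe_finset _
    _ ≤ #F1 + #F2 := Finset.card_union_le _ _
    _ ≤ _ := Nat.add_le_add hF1 hF2

end Pool.Agent.EP
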